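import Pool.Agent.Helper68.LM.Geo

/-!
# Project LM: module SUP (supporting line at the end of a side)
-/

set_option autoImplicit false

open MeasureTheory Set Filter Topology
open scoped ENNReal RealInnerProductSpace

namespace Pool.Agent.Helper82.LM

open Pool.Agent.Helper68.LM

/-- decomposition of a vector of the plane in an orthonormal frame -/
lemma decomp (u v : Pl) (hu : ‖u‖ = 1) (hv : ‖v‖ = 1) (huv : ⟪u, v⟫ = 0) (z : Pl) :
    z = (⟪z, u⟫ : ℝ) • u + (⟪z, v⟫ : ℝ) • v := by
  have hon : Orthonormal ℝ (![u, v] : Fin 2 → Pl) := by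
    rw [orthonormal_iff_ite]
    intro i j
    fin_cases i <;> fin_cases j
    · simp [hu]
    · simp [huv]
    · simp [real_inner_comm, huv]
    · simp [hv]
  have hspan : ⊤ ≤ Submodule.span ℝ (Set.range (![u, v] : Fin 2 → Pl)) := by
    rw [hon.linearIndependent.span_eq_top_of_card_eq_finrank' (by simp)]
  have h := (OrthonormalBasis.mk hon hspan).sum_repr' z
  rw [Fin.sum_univ_two] at h
  simp only [OrthonormalBasis.coe_mk, Matrix.cons_val_zero, Matrix.cons_val_one] at h
  rw [real_inner_comm u z, real_inner_comm v z, h]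

theorem hSUP : StSUP := by
  intro Ω P u v c φ hΩo hΩc hΩn hside hsub x hx
  obtain ⟨hu, hv, huv, hc0, hc1, hφ0, hφc, hφ2, hφlim, hφb, hφm⟩ := hside
  have hdiff : ∀ t ∈ Ioo 0 c, DifferentiableAt ℝ φ t := by
    intro t ht
    exact ((hφ2.differentiableOn (by norm_num)) t ht).differentiableAt (isOpen_Ioo.mem_nhds ht)
  have hdcont : ContinuousOn (deriv φ) (Ioo 0 c) := by
    have h1 : ContDiffOn ℝ 1 (deriv φ) (Ioo 0 c) :=
      hφ2.deriv_of_isOpen isOpen_Ioo (by norm_num)
    exact h1.continuousOn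
  have hmono : StrictMonoOn (deriv φ) (Ioo 0 c) := by
    apply strictMonoOn_of_deriv_pos (convex_Ioo 0 c) hdcont
    intro t ht
    rw [interior_Ioo] at ht
    exact (hφb t ht).2
  -- the inequality at a point of the side
  have hpt : ∀ t ∈ Ioo 0 c, 0 ≤ (⟪x - curve P u v φ t, v⟫ : ℝ) -
      deriv φ t * (⟪x - curve P u v φ t, u⟫ : ℝ) := by
    intro t ht
    have hyf : curve P u v φ t ∈ frontier Ω := hsub ⟨t, ht, rfl⟩
    have hyn : curve P u v φ t ∉ Ω := by
      rw [hΩo.frontier_eq] at hyf
      exact hyf.2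
    obtain ⟨f, hf⟩ := geometric_hahn_banach_open_point hΩc hΩo hyn
    have hcl : ∀ z ∈ closure Ω, f z ≤ f (curve P u v φ t) := by
      intro z hz
      have : closure Ω ⊆ {z | f z ≤ f (curve P u v φ t)} :=
        closure_minimal (fun a ha => (hf a ha).le)
          (isClosed_le f.continuous continuous_const)
      exact this hz
    have hcs : ∀ s ∈ Ioo 0 c, f (curve P u v φ s) ≤ f (curve P u v φ t) := fun s hs =>
      hcl _ (frontier_subset_closure (hsub ⟨s, hs, rfl⟩))
    have hfc : ∀ s, f (curve P u v φ s) = f P + s * f u + φ s * f v := by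
      intro s
      simp [curve]
    have hder : f u + deriv φ t * f v = 0 := by
      have hmax : IsLocalMax (fun s => f (curve P u v φ s)) t := by
        filter_upwards [isOpen_Ioo.mem_nhds ht] with s hs
        exact hcs s hs
      have hd : HasDerivAt (fun s => f (curve P u v φ s)) (f u + deriv φ t * f v) t := by
        simp only [hfc]
        have h1 : HasDerivAt (fun s : ℝ => f P + s * f u) (f u) t := by
          simpa using ((hasDerivAt_id t).mul_const (f u)).const_add (f P)
        exact h1.add ((hdiff t ht).hasDerivAt.mul_const (f v))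
      exact hmax.hasDerivAt_eq_zero hd
    obtain ⟨s, hs⟩ : ∃ s, t < s ∧ s < c := exists_between ht.2
    have hs' : s ∈ Ioo 0 c := ⟨ht.1.trans hs.1, hs.2⟩
    have hconv : 0 < φ s - φ t - deriv φ t * (s - t) := by
      obtain ⟨ξ, hξ, hξ'⟩ := exists_deriv_eq_slope φ hs.1
        (hφc.mono (Icc_subset_Icc ht.1.le hs.2.le))
        (fun w hw => (hdiff w ⟨ht.1.trans hw.1, hw.2.trans hs.2⟩).differentiableWithinAt)
      have h1 : deriv φ t < deriv φ ξ :=
        hmono ht ⟨ht.1.trans hξ.1, hξ.2.trans hs.2⟩ hξ.1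
      have hst : 0 < s - t := sub_pos.mpr hs.1
      have h2 : φ s - φ t = deriv φ ξ * (s - t) := by
        rw [hξ']
        field_simp
      rw [h2]
      nlinarith
    have hle := hcs s hs'
    rw [hfc, hfc] at hle
    have hfv : f v ≤ 0 := by
      by_contra hcon
      rw [not_le] at hcon
      have : f u = - (deriv φ t * f v) := by linarith
      rw [this] at hle
      nlinarith [mul_pos hcon hconv]
    have hxy : f (x - curve P u v φ t) < 0 := by
      rw [map_sub]
      linarith [hf x hx]
    have hdec := decomp u v hu hv huv (x - curve P u v φ t)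
    rw [hdec, map_add, map_smul, map_smul, smul_eq_mul, smul_eq_mul] at hxy
    have hfu : f u = - (deriv φ t * f v) := by linarith
    rw [hfu] at hxy
    by_contra hcon
    rw [not_le] at hcon
    nlinarith [mul_nonneg_of_nonpos_of_nonpos hfv hcon.le]
  -- limit
  have hφt : Tendsto φ (𝓝[>] 0) (𝓝 0) := by
    have h1 : ContinuousWithinAt φ (Icc 0 c) 0 := hφc 0 ⟨le_refl _, hc0.le⟩
    have h2 : Tendsto φ (𝓝[Icc 0 c] 0) (𝓝 0) := by
      have := h1.tendsto
      rwa [hφ0] at this
    refine h2.mono_left ?_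
    rw [nhdsWithin_le_iff]
    filter_upwards [Ioo_mem_nhdsGT hc0] with t ht
    exact ⟨ht.1.le, ht.2.le⟩
  have hcurve : Tendsto (curve P u v φ) (𝓝[>] 0) (𝓝 P) := by
    have h1 : Tendsto (fun t : ℝ => P + t • u + φ t • v) (𝓝[>] 0)
        (𝓝 (P + (0 : ℝ) • u + (0 : ℝ) • v)) := by
      refine (tendsto_const_nhds.add ?_).add ?_
      · exact (tendsto_nhdsWithin_of_tendsto_nhds tendsto_id).smul_const u
      · exact hφt.smul_const v
    rw [zero_smul, zero_smul, add_zero, add_zero] at h1
    exact h1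
  have hlim : Tendsto (fun t => (⟪x - curve P u v φ t, v⟫ : ℝ) -
      deriv φ t * (⟪x - curve P u v φ t, u⟫ : ℝ)) (𝓝[>] 0)
      (𝓝 ((⟪x - P, v⟫ : ℝ) - 0 * (⟪x - P, u⟫ : ℝ))) := by
    have h1 : Tendsto (fun t => x - curve P u v φ t) (𝓝[>] 0) (𝓝 (x - P)) :=
      tendsto_const_nhds.sub hcurve
    exact (h1.inner tendsto_const_nhds).sub (hφlim.mul (h1.inner tendsto_const_nhds))
  have hge := ge_of_tendsto hlim (by
    filter_upwards [Ioo_mem_nhdsGT hc0] with t ht
    exact hpt t ht)
  simpa using hge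

end Pool.Agent.Helper82.LM
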