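import Pool.Agent.Helper68.LM.St

/-!
# Project LM: module HA (maximal theorem for all measurable functions)
-/

set_option autoImplicit false

open MeasureTheory Set Filter Topology
open scoped ENNReal RealInnerProductSpace

namespace Pool.Agent.Helper82.LM

open Pool.Agent.Helper68.LM

/-- truncation -/
noncomputable def tr (f : Pl → ℝ≥0∞) (n : ℕ) (x : Pl) : ℝ≥0∞ :=
  (Metric.closedBall (0 : Pl) n).indicator (fun x => min (f x) n) x

lemma tr_measurable (f : Pl → ℝ≥0∞) (hf : Measurable f) (n : ℕ) : Measurable (tr f n) :=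
  (hf.min measurable_const).indicator Metric.isClosed_closedBall.measurableSet

lemma tr_le_nat (f : Pl → ℝ≥0∞) (n : ℕ) (x : Pl) : tr f n x ≤ n := by
  rw [tr]
  by_cases hx : x ∈ Metric.closedBall (0 : Pl) n
  · rw [indicator_of_mem hx]
    exact min_le_right _ _
  · rw [indicator_of_notMem hx]
    exact zero_le

lemma tr_le (f : Pl → ℝ≥0∞) (n : ℕ) (x : Pl) : tr f n x ≤ f x := by
  rw [tr]
  by_cases hx : x ∈ Metric.closedBall (0 : Pl) n
  · rw [indicator_of_mem hx]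
    exact min_le_left _ _
  · rw [indicator_of_notMem hx]
    exact zero_le

lemma tr_mono (f : Pl → ℝ≥0∞) (x : Pl) : Monotone (fun n => tr f n x) := by
  intro m n hmn
  simp only [tr]
  by_cases hx : x ∈ Metric.closedBall (0 : Pl) m
  · have hx' : x ∈ Metric.closedBall (0 : Pl) n :=
      Metric.closedBall_subset_closedBall (by exact_mod_cast hmn) hx
    rw [indicator_of_mem hx, indicator_of_mem hx']
    exact min_le_min_left _ (by exact_mod_cast hmn)
  · rw [indicator_of_notMem hx]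
    exact zero_le

lemma tr_sup (f : Pl → ℝ≥0∞) (x : Pl) : ⨆ n, tr f n x = f x := by
  apply le_antisymm (iSup_le fun n => tr_le f n x)
  obtain ⟨m, hm⟩ := exists_nat_ge ‖x‖
  have hx : ∀ n, m ≤ n → x ∈ Metric.closedBall (0 : Pl) n := by
    intro n hn
    rw [mem_closedBall_zero_iff]
    exact hm.trans (by exact_mod_cast hn)
  apply le_of_forall_lt
  intro c hc
  obtain ⟨k, hk⟩ := ENNReal.exists_nat_gt (ne_top_of_lt hc)
  refine lt_of_lt_of_le ?_ (le_iSup (fun n => tr f n x) (max m k))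
  simp only [tr]
  rw [indicator_of_mem (hx _ (le_max_left _ _)), lt_min_iff]
  exact ⟨hc, hk.trans_le (by exact_mod_cast le_max_right _ _)⟩

lemma tr_BB (f : Pl → ℝ≥0∞) (hf : Measurable f) (n : ℕ) : BB (fun x => (tr f n x).toReal) := by
  refine ⟨(tr_measurable f hf n).ennreal_toReal, n, fun x => ?_, fun x hx => ?_⟩
  · rw [abs_of_nonneg ENNReal.toReal_nonneg]
    have := ENNReal.toReal_mono (ENNReal.natCast_ne_top n) (tr_le_nat f n x)
    simpa using this
  · have h0 : tr f n x = 0 := by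
      rw [tr, indicator_of_notMem]
      rw [mem_closedBall_zero_iff, not_le]
      exact hx
    simp only [h0, ENNReal.toReal_zero]

theorem hHA (hBBC : StBBC) (hPA : StPA) (hPB : StPB) : StHA := by
  intro p R hp hR
  have key : ∃ C : ℝ, 0 < C ∧ ∀ (ν : Measure Pl) (L : ℝ) (N : ℕ), Bd R L ν →
      0 < L → Dec L N ν → ∀ g : Pl → ℝ, BB g → (∀ x, 0 ≤ g x) →
      ∫⁻ x, (⨆ k : ℤ, ENNReal.ofReal (Av ν ((2 : ℝ) ^ k) g x)) ^ p ≤
        ENNReal.ofReal (C * L ^ p * (N + 1)) * ∫⁻ x, ENNReal.ofReal (g x) ^ p := by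
    rcases le_or_gt 2 p with h | h
    · exact hPA p R h hR
    · exact hPB p R hp h hR
  obtain ⟨C, hC, hkey⟩ := key
  refine ⟨C, hC, ?_⟩
  intro ν L N hν hL hdec f hf
  have hfin : IsFiniteMeasure ν := ⟨hν.2.trans_lt ENNReal.ofReal_lt_top⟩
  have hp0 : 0 < p := by linarith
  have hre : ∀ n x, ENNReal.ofReal ((tr f n x).toReal) = tr f n x := fun n x =>
    ENNReal.ofReal_toReal (ne_top_of_le_ne_top (ENNReal.natCast_ne_top n) (tr_le_nat f n x))
  have hAv : ∀ (n : ℕ) (k : ℤ) (x : Pl),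
      ENNReal.ofReal (Av ν ((2 : ℝ) ^ k) (fun x => (tr f n x).toReal) x) =
        ∫⁻ y, tr f n (x - (2 : ℝ) ^ k • y) ∂ν := by
    intro n k x
    rw [Av, ofReal_integral_eq_lintegral_ofReal]
    · exact lintegral_congr fun y => hre _ _
    · refine Integrable.of_bound (C := n) ?_ (ae_of_all _ fun y => ?_)
      · have h1 : Measurable (fun y : Pl => (tr f n (x - (2 : ℝ) ^ k • y)).toReal) :=
          ((tr_measurable f hf n).comp (by fun_prop)).ennreal_toReal
        exact h1.aestronglyMeasurable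
      · have h2 := ENNReal.toReal_mono (ENNReal.natCast_ne_top n)
          (tr_le_nat f n (x - (2 : ℝ) ^ k • y))
        rw [Real.norm_of_nonneg ENNReal.toReal_nonneg]
        simpa using h2
    · exact ae_of_all _ fun y => ENNReal.toReal_nonneg
  have hn : ∀ n : ℕ, ∫⁻ x, (⨆ k : ℤ, ∫⁻ y, tr f n (x - (2 : ℝ) ^ k • y) ∂ν) ^ p ≤
      ENNReal.ofReal (C * L ^ p * (N + 1)) * ∫⁻ x, f x ^ p := by
    intro n
    have h1 := hkey ν L N hν hL hdec (fun x => (tr f n x).toReal) (tr_BB f hf n)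
      (fun x => ENNReal.toReal_nonneg)
    simp only [hAv, hre] at h1
    refine h1.trans ?_
    gcongr with x
    exact tr_le f n x
  have hmeas : ∀ n : ℕ, Measurable
      (fun x => (⨆ k : ℤ, ∫⁻ y, tr f n (x - (2 : ℝ) ^ k • y) ∂ν) ^ p) := by
    intro n
    apply Measurable.pow_const
    apply Measurable.iSup
    intro k
    simp only [← hAv]
    exact (hBBC.2.2.1 ν R L ((2 : ℝ) ^ k) _ hν (by positivity) (tr_BB f hf n)).1.ennreal_ofReal
  have hmono : Monotone (fun n : ℕ => fun x =>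
      (⨆ k : ℤ, ∫⁻ y, tr f n (x - (2 : ℝ) ^ k • y) ∂ν) ^ p) := by
    intro m n hmn x
    simp only
    apply ENNReal.rpow_le_rpow _ hp0.le
    refine iSup_mono fun k => lintegral_mono fun y => ?_
    exact tr_mono f _ hmn
  have hsup : ∀ x, (⨆ k : ℤ, ∫⁻ y, f (x - (2 : ℝ) ^ k • y) ∂ν) ^ p =
      ⨆ n : ℕ, (⨆ k : ℤ, ∫⁻ y, tr f n (x - (2 : ℝ) ^ k • y) ∂ν) ^ p := by
    intro x
    have h1 : ∀ k : ℤ, ∫⁻ y, f (x - (2 : ℝ) ^ k • y) ∂ν =
        ⨆ n : ℕ, ∫⁻ y, tr f n (x - (2 : ℝ) ^ k • y) ∂ν := by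
      intro k
      rw [← lintegral_iSup]
      · exact lintegral_congr fun y => (tr_sup f _).symm
      · intro n
        exact (tr_measurable f hf n).comp (by fun_prop)
      · intro m n hmn y
        exact tr_mono f _ hmn
    simp only [h1]
    rw [iSup_comm]
    exact (ENNReal.orderIsoRpow p hp0).map_iSup _
  calc ∫⁻ x, (⨆ k : ℤ, ∫⁻ y, f (x - (2 : ℝ) ^ k • y) ∂ν) ^ p
      = ∫⁻ x, ⨆ n : ℕ, (⨆ k : ℤ, ∫⁻ y, tr f n (x - (2 : ℝ) ^ k • y) ∂ν) ^ p :=
        lintegral_congr hsup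
    _ = ⨆ n : ℕ, ∫⁻ x, (⨆ k : ℤ, ∫⁻ y, tr f n (x - (2 : ℝ) ^ k • y) ∂ν) ^ p :=
        lintegral_iSup hmeas hmono
    _ ≤ _ := iSup_le hn

end Pool.Agent.Helper82.LM
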