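import Pool.Agent.Helper68.LM.St

/-!
# Project LM: module HO1 (Hormander estimate at one scale)
-/

set_option autoImplicit false

open MeasureTheory Set Filter Topology
open scoped ENNReal RealInnerProductSpace

namespace Pool.Agent.Helper82.LM

open Pool.Agent.Helper68.LM

lemma finrank_Pl : Module.finrank ℝ Pl = 2 := by
  simp

/-- the average is bounded on `L^1` -/
lemma lint_Av (ν : Measure Pl) [IsFiniteMeasure ν] (t : ℝ) (h : Pl → ℝ) (hh : Measurable h) :
    ∫⁻ x, ‖Av ν t h x‖ₑ ≤ ν univ * ∫⁻ x, ‖h x‖ₑ := by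
  calc ∫⁻ x, ‖Av ν t h x‖ₑ ≤ ∫⁻ x, ∫⁻ y, ‖h (x - t • y)‖ₑ ∂ν := by
        refine lintegral_mono fun x => ?_
        exact enorm_integral_le_lintegral_enorm _
    _ = ∫⁻ y, (∫⁻ x, ‖h (x - t • y)‖ₑ) ∂ν := by
        apply lintegral_lintegral_swap
        apply Measurable.aemeasurable
        exact (hh.comp (measurable_fst.sub (measurable_snd.const_smul t))).enorm
    _ = ∫⁻ _y, (∫⁻ x, ‖h x‖ₑ) ∂ν := by
        refine lintegral_congr fun y => ?_
        exact lintegral_sub_right_eq_self (fun x => ‖h x‖ₑ) (t • y)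
    _ = ν univ * ∫⁻ x, ‖h x‖ₑ := by
        rw [lintegral_const, mul_comm]

/-- smoothing is a contraction of `L^1` -/
lemma lint_Sm (hPH : StPH) (s : ℝ) (g : Pl → ℝ) (hg : Measurable g) :
    ∫⁻ x, ‖Sm s g x‖ₑ ≤ ∫⁻ x, ‖g x‖ₑ := by
  obtain ⟨hc, h0, hz, hint, hI, -⟩ := hPH
  calc ∫⁻ x, ‖Sm s g x‖ₑ ≤ ∫⁻ x, ∫⁻ z, ENNReal.ofReal (ph z) * ‖g (x - s • z)‖ₑ := by
        refine lintegral_mono fun x => ?_
        refine (enorm_integral_le_lintegral_enorm _).trans (lintegral_mono fun z => ?_)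
        rw [enorm_mul, Real.enorm_of_nonneg (h0 z)]
    _ = ∫⁻ z, ∫⁻ x, ENNReal.ofReal (ph z) * ‖g (x - s • z)‖ₑ := by
        apply lintegral_lintegral_swap
        apply Measurable.aemeasurable
        exact (hc.measurable.comp measurable_snd).ennreal_ofReal.mul
          (hg.comp (measurable_fst.sub (measurable_snd.const_smul s))).enorm
    _ = ∫⁻ z, ENNReal.ofReal (ph z) * ∫⁻ x, ‖g x‖ₑ := by
        refine lintegral_congr fun z => ?_
        rw [lintegral_const_mul]
        · congr 1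
          exact lintegral_sub_right_eq_self (fun x => ‖g x‖ₑ) (s • z)
        · exact (hg.comp (measurable_id.sub_const _)).enorm
    _ = ∫⁻ x, ‖g x‖ₑ := by
        rw [lintegral_mul_const _ hc.measurable.ennreal_ofReal,
          ← ofReal_integral_eq_lintegral_ofReal hI (ae_of_all _ h0), hint]
        simp

/-- the volume of a closed ball of the plane -/
lemma vol_ball (x : Pl) (s : ℝ) (hs : 0 ≤ s) :
    volume (Metric.closedBall x s) =
      ENNReal.ofReal (s ^ 2) * volume (Metric.closedBall (0 : Pl) 1) := by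
  rw [Measure.addHaar_closedBall volume x hs, finrank_Pl,
    Measure.addHaar_closedBall volume (0 : Pl) zero_le_one]
  simp

/-- smoothing written with a kernel, with a constant subtracted -/
lemma Sm_eq (hPH : StPH) (s : ℝ) (hs : 0 < s) (g : Pl → ℝ) (hg : BB g) (hg0 : ∫ x, g x = 0)
    (c x : Pl) :
    Sm s g x = (s ^ 2)⁻¹ * ∫ w, (ph (s⁻¹ • (x - w)) - ph (s⁻¹ • (x - c))) * g w := by
  obtain ⟨hc, h0, hz, hint, hI, C₀, hC₀, hC1, hC2⟩ := hPH
  obtain ⟨hgm, K, hK1, hK2⟩ := hg
  have hgi : Integrable g := by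
    have hb : Integrable (fun x : Pl => (Metric.closedBall (0 : Pl) K).indicator
        (fun _ => K) x) := by
      apply (integrable_indicator_iff Metric.isClosed_closedBall.measurableSet).mpr
      exact integrableOn_const (hs := measure_closedBall_lt_top.ne) (hC := by simp)
    refine hb.mono' hgm.aestronglyMeasurable (ae_of_all _ fun x => ?_)
    by_cases hx : x ∈ Metric.closedBall (0 : Pl) K
    · rw [indicator_of_mem hx]
      exact hK1 x
    · rw [indicator_of_notMem hx, hK2 x]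
      · simp
      · simpa using hx
  have h1 : Sm s g x = ∫ z, (fun w => ph (s⁻¹ • (x - w)) * g w) (x - s • z) := by
    rw [Sm]
    refine integral_congr_ae (ae_of_all _ fun z => ?_)
    simp only [sub_sub_cancel, smul_smul, inv_mul_cancel₀ hs.ne', one_smul]
  have h2 : ∫ z, (fun w => ph (s⁻¹ • (x - w)) * g w) (x - s • z) =
      (s ^ 2)⁻¹ * ∫ w, ph (s⁻¹ • (x - w)) * g w := by
    rw [Measure.integral_comp_smul volume
      (fun v => (fun w => ph (s⁻¹ • (x - w)) * g w) (x - v)) s, finrank_Pl,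
      integral_sub_left_eq_self (fun w => ph (s⁻¹ • (x - w)) * g w) volume x, smul_eq_mul,
      abs_of_nonneg (by positivity)]
  have h3 : Integrable (fun w => ph (s⁻¹ • (x - w)) * g w) := by
    refine Integrable.bdd_mul (c := C₀) hgi ?_ (ae_of_all _ fun w => ?_)
    · exact (hc.comp (by fun_prop)).aestronglyMeasurable
    · rw [Real.norm_of_nonneg (h0 _)]
      exact hC1 _
  rw [h1, h2]
  congr 1
  have h4 : (fun w => (ph (s⁻¹ • (x - w)) - ph (s⁻¹ • (x - c))) * g w) =
      fun w => ph (s⁻¹ • (x - w)) * g w - ph (s⁻¹ • (x - c)) * g w := by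
    funext w
    ring
  rw [h4, integral_sub h3 (hgi.const_mul _), integral_const_mul, hg0]
  ring

/-- the `L^1` modulus of continuity of the kernel -/
lemma kernel_bound (C₀ : ℝ) (hC₀ : 0 < C₀) (hz : ∀ x : Pl, 1 ≤ ‖x‖ → ph x = 0)
    (hC2 : ∀ x y, |ph x - ph y| ≤ C₀ * ‖x - y‖) (s r : ℝ) (hs : 0 < s) (c w : Pl)
    (hw : ‖w - c‖ ≤ r) :
    ∫⁻ x, ‖ph (s⁻¹ • (x - w)) - ph (s⁻¹ • (x - c))‖ₑ ≤
      ENNReal.ofReal (C₀ * (r / s)) * (2 * (ENNReal.ofReal (s ^ 2) *
        volume (Metric.closedBall (0 : Pl) 1))) := by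
  have hpt : ∀ x : Pl, ‖ph (s⁻¹ • (x - w)) - ph (s⁻¹ • (x - c))‖ₑ ≤
      (Metric.closedBall w s).indicator (fun _ => ENNReal.ofReal (C₀ * (r / s))) x +
      (Metric.closedBall c s).indicator (fun _ => ENNReal.ofReal (C₀ * (r / s))) x := by
    intro x
    have hle : ‖ph (s⁻¹ • (x - w)) - ph (s⁻¹ • (x - c))‖ₑ ≤ ENNReal.ofReal (C₀ * (r / s)) := by
      rw [← ofReal_norm, Real.norm_eq_abs]
      apply ENNReal.ofReal_le_ofReal
      refine (hC2 _ _).trans ?_
      apply mul_le_mul_of_nonneg_left _ hC₀.le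
      rw [← smul_sub, norm_smul, norm_inv, Real.norm_of_nonneg hs.le, div_eq_inv_mul]
      apply mul_le_mul_of_nonneg_left _ (by positivity)
      have h5 : x - w - (x - c) = -(w - c) := by abel
      rw [h5, norm_neg]
      exact hw
    by_cases h1 : x ∈ Metric.closedBall w s
    · rw [indicator_of_mem h1]
      exact hle.trans le_self_add
    · by_cases h2 : x ∈ Metric.closedBall c s
      · rw [indicator_of_mem h2]
        exact hle.trans le_add_self
      · have hfar : ∀ v : Pl, x ∉ Metric.closedBall v s → ph (s⁻¹ • (x - v)) = 0 := by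
          intro v hv
          apply hz
          rw [norm_smul, norm_inv, Real.norm_of_nonneg hs.le, ← div_eq_inv_mul, le_div_iff₀ hs,
            one_mul]
          rw [Metric.mem_closedBall, dist_eq_norm, not_le] at hv
          exact hv.le
        rw [hfar w h1, hfar c h2]
        simp
  calc ∫⁻ x, ‖ph (s⁻¹ • (x - w)) - ph (s⁻¹ • (x - c))‖ₑ
      ≤ ∫⁻ x, ((Metric.closedBall w s).indicator (fun _ => ENNReal.ofReal (C₀ * (r / s))) x +
        (Metric.closedBall c s).indicator (fun _ => ENNReal.ofReal (C₀ * (r / s))) x) :=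
        lintegral_mono hpt
    _ = _ := by
        rw [lintegral_add_left (measurable_const.indicator Metric.isClosed_closedBall.measurableSet),
          lintegral_indicator_const Metric.isClosed_closedBall.measurableSet,
          lintegral_indicator_const Metric.isClosed_closedBall.measurableSet,
          vol_ball w s hs.le, vol_ball c s hs.le]
        ring

/-- smoothing at scale `s` of a function of mean zero with support of radius `r` -/
lemma lint_Sm2 (hPH : StPH) (C₀ : ℝ) (hC₀ : 0 < C₀)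
    (hC2 : ∀ x y, |ph x - ph y| ≤ C₀ * ‖x - y‖) (s r : ℝ) (hs : 0 < s) (g : Pl → ℝ) (hg : BB g)
    (hg0 : ∫ x, g x = 0) (c : Pl) (hsupp : ∀ x, r < ‖x - c‖ → g x = 0) :
    ∫⁻ x, ‖Sm s g x‖ₑ ≤ ENNReal.ofReal (C₀ * (r / s)) *
      (2 * volume (Metric.closedBall (0 : Pl) 1)) * ∫⁻ x, ‖g x‖ₑ := by
  have hc := hPH.1
  have hz := hPH.2.2.1
  have hgm := hg.1
  have hm : Measurable (fun q : Pl × Pl =>
      ‖ph (s⁻¹ • (q.1 - q.2)) - ph (s⁻¹ • (q.1 - c))‖ₑ * ‖g q.2‖ₑ) := by
    have h1 : Measurable (fun q : Pl × Pl => ph (s⁻¹ • (q.1 - q.2))) :=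
      (hc.comp (by fun_prop)).measurable
    have h2 : Measurable (fun q : Pl × Pl => ph (s⁻¹ • (q.1 - c))) :=
      (hc.comp (by fun_prop)).measurable
    exact (h1.sub h2).enorm.mul (hgm.comp measurable_snd).enorm
  calc ∫⁻ x, ‖Sm s g x‖ₑ
      ≤ ∫⁻ x, ENNReal.ofReal (s ^ 2)⁻¹ *
        ∫⁻ w, ‖ph (s⁻¹ • (x - w)) - ph (s⁻¹ • (x - c))‖ₑ * ‖g w‖ₑ := by
        refine lintegral_mono fun x => ?_
        rw [Sm_eq hPH s hs g hg hg0 c x, enorm_mul, Real.enorm_of_nonneg (by positivity)]
        gcongr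
        refine (enorm_integral_le_lintegral_enorm _).trans (lintegral_mono fun w => ?_)
        rw [enorm_mul]
    _ = ENNReal.ofReal (s ^ 2)⁻¹ *
        ∫⁻ x, ∫⁻ w, ‖ph (s⁻¹ • (x - w)) - ph (s⁻¹ • (x - c))‖ₑ * ‖g w‖ₑ := by
        rw [lintegral_const_mul]
        exact hm.lintegral_prod_right'
    _ = ENNReal.ofReal (s ^ 2)⁻¹ *
        ∫⁻ w, ∫⁻ x, ‖ph (s⁻¹ • (x - w)) - ph (s⁻¹ • (x - c))‖ₑ * ‖g w‖ₑ := by
        congr 1
        exact lintegral_lintegral_swap hm.aemeasurable
    _ ≤ ENNReal.ofReal (s ^ 2)⁻¹ *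
        ∫⁻ w, ENNReal.ofReal (C₀ * (r / s)) * (2 * (ENNReal.ofReal (s ^ 2) *
        volume (Metric.closedBall (0 : Pl) 1))) * ‖g w‖ₑ := by
        gcongr with w
        rw [lintegral_mul_const]
        · by_cases hw : ‖w - c‖ ≤ r
          · gcongr
            exact kernel_bound C₀ hC₀ hz hC2 s r hs c w hw
          · rw [hsupp w (not_le.mp hw)]
            simp
        · exact ((hc.comp (by fun_prop)).measurable.sub
            (hc.comp (by fun_prop)).measurable).enorm
    _ = _ := by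
        rw [lintegral_const_mul _ hgm.enorm]
        have h1 : ENNReal.ofReal (s ^ 2)⁻¹ * ENNReal.ofReal (s ^ 2) = 1 := by
          rw [← ENNReal.ofReal_mul (by positivity), inv_mul_cancel₀ (by positivity),
            ENNReal.ofReal_one]
        calc ENNReal.ofReal (s ^ 2)⁻¹ * (ENNReal.ofReal (C₀ * (r / s)) *
              (2 * (ENNReal.ofReal (s ^ 2) * volume (Metric.closedBall (0 : Pl) 1))) *
              ∫⁻ x, ‖g x‖ₑ)
            = (ENNReal.ofReal (s ^ 2)⁻¹ * ENNReal.ofReal (s ^ 2)) *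
              (ENNReal.ofReal (C₀ * (r / s)) * (2 * volume (Metric.closedBall (0 : Pl) 1)) *
              ∫⁻ x, ‖g x‖ₑ) := by ring
          _ = _ := by rw [h1, one_mul]

theorem hHO1 (hPH : StPH) (hBBC : StBBC) : StHO1 := by
  intro R hR
  obtain ⟨C₀, hC₀, hC1, hC2⟩ := hPH.2.2.2.2.2
  obtain ⟨V, hV⟩ : ∃ V : ℝ, V = (volume (Metric.closedBall (0 : Pl) 1)).toReal := ⟨_, rfl⟩
  have hVne : volume (Metric.closedBall (0 : Pl) 1) = ENNReal.ofReal V := by
    rw [hV, ENNReal.ofReal_toReal]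
    exact measure_closedBall_lt_top.ne
  have hV0 : 0 ≤ V := by rw [hV]; exact ENNReal.toReal_nonneg
  refine ⟨C₀ * (2 * V) + 1, by positivity, ?_⟩
  intro ν L hν hL g c r s t hg hr hs hst hsupp hg0
  obtain ⟨hνR, hνL⟩ := hν
  have : IsFiniteMeasure ν := ⟨hνL.trans_lt ENNReal.ofReal_lt_top⟩
  have ht : 0 < t := hs.trans_le hst
  split_ifs with hcase
  · rw [zero_mul, nonpos_iff_eq_zero]
    rw [setLIntegral_congr_fun (g := fun _ => (0 : ℝ≥0∞))
      Metric.isClosed_closedBall.measurableSet.compl]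
    · simp
    · intro x hx
      have hx' : 2 * r < ‖x - c‖ := by
        have : x ∉ Metric.closedBall c (2 * r) := hx
        rw [Metric.mem_closedBall, dist_eq_norm, not_le] at this
        exact this
      have hzero : Av ν t (Sm s g) x = 0 := by
        rw [Av]
        have : ∀ᵐ y ∂ν, Sm s g (x - t • y) = (fun _ : Pl => (0 : ℝ)) y := by
          have hae : ∀ᵐ y ∂ν, y ∈ Metric.closedBall (0 : Pl) R := by
            rw [ae_iff]
            exact hνR
          filter_upwards [hae] with y hy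
          have hy' : ‖y‖ ≤ R := by simpa using hy
          rw [Sm]
          have hz0 : ∀ z : Pl, ph z * g (x - t • y - s • z) = 0 := by
            intro z
            by_cases hz1 : 1 ≤ ‖z‖
            · rw [hPH.2.2.1 z hz1, zero_mul]
            · rw [not_le] at hz1
              rw [hsupp, mul_zero]
              have e1 : ‖t • y‖ ≤ t * R := by
                rw [norm_smul, Real.norm_of_nonneg ht.le]
                exact mul_le_mul_of_nonneg_left hy' ht.le
              have e2 : ‖s • z‖ ≤ t * 1 := by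
                rw [norm_smul, Real.norm_of_nonneg hs.le]
                exact mul_le_mul hst hz1.le (norm_nonneg _) ht.le
              have e3 : ‖x - c‖ ≤ ‖x - t • y - s • z - c‖ + (‖t • y‖ + ‖s • z‖) := by
                have : x - c = (x - t • y - s • z - c) + (t • y + s • z) := by abel
                calc ‖x - c‖ = ‖(x - t • y - s • z - c) + (t • y + s • z)‖ := by rw [← this]
                  _ ≤ ‖x - t • y - s • z - c‖ + ‖t • y + s • z‖ := norm_add_le _ _
                  _ ≤ _ := by gcongr; exact norm_add_le _ _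
              nlinarith
          simp [hz0]
        rw [integral_congr_ae this]
        simp
      simp only [hzero, enorm_zero]
  · have hSm : BB (Sm s g) := hBBC.2.1 g s hg
    have h1 : ∫⁻ x in (Metric.closedBall c (2 * r))ᶜ, ‖Av ν t (Sm s g) x‖ₑ ≤
        ENNReal.ofReal L * ∫⁻ x, ‖Sm s g x‖ₑ := by
      refine (setLIntegral_le_lintegral _ _).trans ?_
      refine (lint_Av ν t (Sm s g) hSm.1).trans ?_
      gcongr
    refine h1.trans ?_
    rcases le_total (2 : ℝ) ((C₀ * (2 * V) + 1) * r / s) with hm | hm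
    · rw [min_eq_left hm, ENNReal.ofReal_mul hL.le, mul_assoc]
      gcongr
      refine (lint_Sm hPH s g hg.1).trans ?_
      calc ∫⁻ x, ‖g x‖ₑ = 1 * ∫⁻ x, ‖g x‖ₑ := (one_mul _).symm
        _ ≤ ENNReal.ofReal 2 * ∫⁻ x, ‖g x‖ₑ := by
          gcongr
          rw [← ENNReal.ofReal_one]
          exact ENNReal.ofReal_le_ofReal (by norm_num)
    · rw [min_eq_right hm, ENNReal.ofReal_mul hL.le, mul_assoc]
      gcongr
      refine (lint_Sm2 hPH C₀ hC₀ hC2 s r hs g hg hg0 c hsupp).trans ?_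
      gcongr
      rw [hVne]
      have h2 : (2 : ℝ≥0∞) = ENNReal.ofReal 2 := by simp
      rw [h2, ← ENNReal.ofReal_mul (by norm_num), ← ENNReal.ofReal_mul (by positivity)]
      apply ENNReal.ofReal_le_ofReal
      have : C₀ * (r / s) * (2 * V) = C₀ * (2 * V) * r / s := by ring
      rw [this]
      gcongr
      linarith

end Pool.Agent.Helper82.LM
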